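import Pool.Agent.Work.MP_7453a1_ne.Interface
import Pool.Agent.Work.MP_7453a1_nt_sym.Six

set_option autoImplicit false

/-!
# Block BDX: a bad exceptional step is impossible
-/

namespace Pool.NE

open Pool.Agent.Work.MP_7453a1_nt_norm Pool.Agent.Work.MP_7453a1_nt_h45 Filter
open Pool.Agent.Work.MP_7453a1_nt_sym (IsFrame2 Cfg Bad N_double cmp_scaled)
open Pool.Agent.Work.MP_7453a1_nt_sym.Bad (ne_of_q)

/-- `z₋₁ = u`. -/
theorem BDX_prev {N : Seminorm ℝ V} {Θ : V} {z : ℕ → Pt 2} {x u : Pt 2} (h : Bad N Θ z x u)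
    (hK : N (ev Θ x) ≤ N (ev Θ x - ev Θ u)) (hP : N (ev Θ u) ≤ N (ev Θ x + ev Θ u)) :
    z 2 = u := by
  obtain ⟨p0, m01, m12, m23, qx0, qxu, qx1, qu⟩ := h.qs
  obtain ⟨l6, l5, l4, l3, l2, l1, lx, lu⟩ := h.ls
  obtain ⟨ux, uu, uxu, uxu'⟩ := h.us
  have q4 := h.q4
  have q5 := h.q5
  have q6 := h.q6
  have E := h.E
  have n0 := apply_nonneg N (ev Θ (z 3))
  -- the possible values `x + u` and `u - x`
  have hsp1 : z 2 ≠ x + u := by
    intro hv
    have q : (z 2).1 = x.1 + u.1 := by rw [hv]; rfl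
    have ev2 : ev Θ (z 2) = ev Θ x + ev Θ u := by rw [hv, map_add (ev Θ)]
    have k := h.x1 (w := u) (ne_of_q (by omega)) (by rw [abs_lt]; constructor <;> omega)
    rw [← ev2] at hP
    linarith
  have hsp2 : z 2 ≠ u - x := by
    intro hv
    have e : ev Θ x - ev Θ u = -ev Θ (z 2) := by rw [hv, map_sub (ev Θ)]; abel
    rw [e, map_neg_eq_map] at hK
    linarith
  obtain ⟨v, hv | hv | hv | hv | hv | hv | hv | hv⟩ := h.cls (z 2)
  · exact absurd hv (h.ne_double 1 v)
  · -- class of `z₀`
    exfalso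
    have q : (z 2).1 = (z 3).1 + (v.1 + v.1) := by rw [hv]; rfl
    have k := h.x2 (w := v) (ne_of_q (by omega)) (by rw [abs_lt]; constructor <;> omega)
    have k2 : ev Θ (v + v) = ev Θ (z 2) - ev Θ (z 3) := by rw [← map_sub (ev Θ), hv]; congr 1; abel
    have k3 := N_double (N := N) (Θ := Θ) v
    rw [k2] at k3
    have k4 := map_sub_le_add N (ev Θ (z 2)) (ev Θ (z 3))
    linarith
  · -- class of `x`
    exfalso
    have q : (z 2).1 = x.1 + (v.1 + v.1) := by rw [hv]; rfl
    rcases cmp (N := N) (a := ev Θ (z 2)) (u := ev Θ u) (w := ev Θ x)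
      (r := 2 * N (ev Θ (z 3))) lu uxu uxu' with k | k
    · have k1 := h.two_le 2 3 rfl (y := x + z 2) (w := x + v) (by rw [hv]; abel)
        (ne_of_q (by simp only [Prod.fst_add]; omega))
        (by simp only [Prod.fst_add]; rw [abs_lt]; constructor <;> omega)
      rw [map_add (ev Θ)] at k1
      linarith
    · have k1 := h.two_le 2 3 rfl (y := x - z 2) (w := -v) (by rw [hv]; abel)
        (ne_of_q (by simp only [Prod.fst_neg]; omega))
        (by simp only [Prod.fst_neg]; rw [abs_lt]; constructor <;> omega)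
      rw [map_sub (ev Θ)] at k1
      linarith
  · -- class of `u`
    have q : (z 2).1 = u.1 + (v.1 + v.1) := by rw [hv]; rfl
    by_contra hne
    have hv0 : v ≠ 0 := by intro h0; rw [h0, add_zero, add_zero] at hv; exact hne hv
    rcases cmp (N := N) (a := ev Θ (z 2)) (u := ev Θ x) (w := ev Θ u)
      (r := 2 * N (ev Θ (z 3))) (by linarith) (by rw [add_comm]; exact uxu)
      (by rw [map_sub_rev]; exact uxu') with k | k
    · have k1 := h.two_le 2 3 rfl (y := u + z 2) (w := u + v) (by rw [hv]; abel)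
        (ne_of_q (by simp only [Prod.fst_add]; omega))
        (by simp only [Prod.fst_add]; rw [abs_lt]; constructor <;> omega)
      rw [map_add (ev Θ)] at k1
      linarith
    · have k1 := h.two_le 2 3 rfl (y := u - z 2) (w := -v) (by rw [hv]; abel)
        (neg_ne_zero.mpr hv0)
        (by simp only [Prod.fst_neg]; rw [abs_lt]; constructor <;> omega)
      rw [map_sub (ev Θ)] at k1
      linarith
  · -- class of `z₁`
    exfalso
    have q : (z 2).1 = (z 4).1 + (v.1 + v.1) := by rw [hv]; rfl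
    have k := h.x2 (w := v) (ne_of_q (by omega)) (by rw [abs_lt]; constructor <;> omega)
    have k2 : ev Θ (v + v) = ev Θ (z 2) - ev Θ (z 4) := by rw [← map_sub (ev Θ), hv]; congr 1; abel
    have k3 := N_double (N := N) (Θ := Θ) v
    rw [k2] at k3
    have k4 := map_sub_le_add N (ev Θ (z 2)) (ev Θ (z 4))
    linarith
  · -- class of `z₂`
    exfalso
    have q : (z 2).1 = (z 5).1 + (v.1 + v.1) := by rw [hv]; rfl
    have k := h.x2 (w := v) (ne_of_q (by omega)) (by rw [abs_lt]; constructor <;> omega)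
    have k2 : ev Θ (v + v) = ev Θ (z 2) - ev Θ (z 5) := by rw [← map_sub (ev Θ), hv]; congr 1; abel
    have k3 := N_double (N := N) (Θ := Θ) v
    rw [k2] at k3
    have k4 := map_sub_le_add N (ev Θ (z 2)) (ev Θ (z 5))
    linarith
  · -- class of `x + u`
    exfalso
    have q : (z 2).1 = x.1 + u.1 + (v.1 + v.1) := by rw [hv]; rfl
    have k1 := h.two_le 3 4 rfl (y := z 2 - (x + u)) (w := v) (by rw [hv]; abel)
      (by intro h0; rw [h0, add_zero, add_zero] at hv; exact hsp1 hv)
      (by rw [abs_lt]; constructor <;> omega)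
    have k2 := h.two_le 3 4 rfl (y := z 2 + (x + u)) (w := x + u + v) (by rw [hv]; abel)
      (ne_of_q (by simp only [Prod.fst_add]; omega))
      (by simp only [Prod.fst_add]; rw [abs_lt]; constructor <;> omega)
    have k3 := h.two_le 3 4 rfl (y := z 2 - (x - u)) (w := u + v) (by rw [hv]; abel)
      (ne_of_q (by simp only [Prod.fst_add]; omega))
      (by simp only [Prod.fst_add]; rw [abs_lt]; constructor <;> omega)
    have k4 := h.two_le 3 4 rfl (y := z 2 + (x - u)) (w := x + v) (by rw [hv]; abel)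
      (by
        intro h0
        have h1 : v = -x := by rw [← sub_eq_zero, sub_neg_eq_add, add_comm]; exact h0
        apply hsp2
        rw [hv, h1]; abel)
      (by simp only [Prod.fst_add]; rw [abs_lt]; constructor <;> omega)
    have k5 : N ((ev Θ x + ev Θ u) + (ev Θ x - ev Θ u)) = 2 * N (ev Θ x) := by
      rw [show (ev Θ x + ev Θ u) + (ev Θ x - ev Θ u) = ev Θ (x + x) by rw [map_add (ev Θ)]; abel, N_double]
    have k6 : N ((ev Θ x + ev Θ u) - (ev Θ x - ev Θ u)) = 2 * N (ev Θ u) := by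
      rw [show (ev Θ x + ev Θ u) - (ev Θ x - ev Θ u) = ev Θ (u + u) by rw [map_add (ev Θ)]; abel, N_double]
    rw [map_sub (ev Θ), map_add (ev Θ)] at k1
    rw [map_add (ev Θ), map_add (ev Θ)] at k2
    rw [map_sub (ev Θ), map_sub (ev Θ)] at k3
    rw [map_add (ev Θ), map_sub (ev Θ)] at k4
    exact six (N := N) (a := ev Θ (z 2)) (x := ev Θ x + ev Θ u) (y := ev Θ x - ev Θ u)
      (r := 2 * N (ev Θ (z 3))) (by linarith) uxu uxu' k2 k1 k4 k3 (by rw [k5]; linarith)
      (by rw [k6]; linarith)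
  · -- class of `z₃`
    exfalso
    have q : (z 2).1 = (z 6).1 + (v.1 + v.1) := by rw [hv]; rfl
    have k := h.x2 (w := v) (ne_of_q (by omega)) (by rw [abs_lt]; constructor <;> omega)
    have k2 : ev Θ (v + v) = ev Θ (z 2) - ev Θ (z 6) := by rw [← map_sub (ev Θ), hv]; congr 1; abel
    have k3 := N_double (N := N) (Θ := Θ) v
    rw [k2] at k3
    have k4 := map_sub_le_add N (ev Θ (z 2)) (ev Θ (z 6))
    linarith

/-- A bad exceptional step is impossible. -/
theorem p_BDX : Stmt_BDX := by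
  intro N Θ z x u h hK hP hI hZ
  have hu := BDX_prev h hK hP
  obtain ⟨p0, m01, m12, m23, qx0, qxu, qx1, qu⟩ := h.qs
  obtain ⟨l6, l5, l4, l3, l2, l1, lx, lu⟩ := h.ls
  obtain ⟨ux, uu, uxu, uxu'⟩ := h.us
  have q4 := h.q4
  have q5 := h.q5
  have q6 := h.q6
  have E := h.E
  have n0 := apply_nonneg N (ev Θ (z 3))
  have q2 : (z 2).1 = u.1 := by rw [hu]
  have e2 : ev Θ (z 2) = ev Θ u := by rw [hu]
  rw [e2] at l3 l2
  have nx : N (ev Θ (z 4) - ev Θ (z 3)) = N (ev Θ x) := by rw [h.e4, add_sub_cancel_left]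
  -- the value `u - x`
  have hsp : z 1 ≠ u - x := by
    intro hv
    have e : ev Θ x - ev Θ u = -ev Θ (z 1) := by rw [hv, map_sub (ev Θ)]; abel
    rw [e, map_neg_eq_map] at hK
    linarith
  -- the condition `M₁ ≥ M₋₁ + M₋₂`
  have C1 : (z 1).1 + (z 2).1 ≤ (z 4).1 := by
    by_contra hcon
    push Not at hcon
    have k := h.toIsFrame2.toIsFrame.exceptional (i := 1) (j := 2) (l := 3) (m := 4) (by omega)
      (by omega) (by omega) hcon
    apply hsp
    rw [h.h4, hu] at k
    have : z 1 = z 1 + (z 3 + x) - (z 3 + x) := by abel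
    rw [this, k]; abel
  -- the value `z₁ - u`
  have hs1 : z 1 ≠ z 4 - u := by
    intro hv
    have e : ev Θ (z 4) - ev Θ u = ev Θ (z 1) := by rw [hv, map_sub (ev Θ)]
    rw [e] at hI
    linarith
  obtain ⟨v, hv | hv | hv | hv | hv | hv | hv | hv⟩ := h.cls (z 1)
  · exact h.ne_double 0 v hv
  · -- class of `z₀`
    have q : (z 1).1 = (z 3).1 + (v.1 + v.1) := by rw [hv]; rfl
    have k1 := h.two_le 3 4 rfl (y := z 1 + z 3) (w := z 3 + v) (by rw [hv]; abel)
      (ne_of_q (by simp only [Prod.fst_add]; omega))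
      (by simp only [Prod.fst_add]; rw [abs_lt]; constructor <;> omega)
    have k2 := h.two_le 3 4 rfl (y := z 1 - z 3) (w := v) (by rw [hv]; abel)
      (ne_of_q (by omega)) (by rw [abs_lt]; constructor <;> omega)
    rw [map_add (ev Θ)] at k1
    rw [map_sub (ev Θ)] at k2
    have k := hZ (ev Θ (z 1)) (ev Θ (z 3)) le_rfl k1 k2
    linarith
  · -- class of `x`
    have q : (z 1).1 = x.1 + (v.1 + v.1) := by rw [hv]; rfl
    rcases cmp_scaled (N := N) (a := ev Θ (z 1)) (u := ev Θ u) (w := ev Θ x)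
      (r := 2 * N (ev Θ (z 3))) (by linarith) l2.le uxu uxu' with k | k
    · have k1 := h.two_le 0 1 rfl (y := x + z 1) (w := x + v) (by rw [hv]; abel)
        (ne_of_q (by simp only [Prod.fst_add]; omega))
        (by simp only [Prod.fst_add]; rw [abs_lt]; constructor <;> omega)
      rw [map_add (ev Θ)] at k1
      linarith
    · have k1 := h.two_le 0 1 rfl (y := x - z 1) (w := -v) (by rw [hv]; abel)
        (ne_of_q (by simp only [Prod.fst_neg]; omega))
        (by simp only [Prod.fst_neg]; rw [abs_lt]; constructor <;> omega)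
      rw [map_sub (ev Θ)] at k1
      linarith
  · -- class of `u`
    have q : (z 1).1 = u.1 + (v.1 + v.1) := by rw [hv]; rfl
    have k1 := h.two_le 1 2 rfl (y := z 1 - u) (w := v) (by rw [hv]; abel)
      (ne_of_q (by omega)) (by rw [abs_lt]; constructor <;> omega)
    rw [map_sub (ev Θ)] at k1
    have k2 := map_sub_le_add N (ev Θ (z 1)) (ev Θ u)
    linarith
  · -- class of `z₁`
    have q : (z 1).1 = (z 4).1 + (v.1 + v.1) := by rw [hv]; rfl
    have k1 := h.two_le 3 4 rfl (y := z 1 + z 4) (w := z 4 + v) (by rw [hv]; abel)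
      (ne_of_q (by simp only [Prod.fst_add]; omega))
      (by simp only [Prod.fst_add]; rw [abs_lt]; constructor <;> omega)
    have k2 := h.two_le 3 4 rfl (y := z 1 - z 4) (w := v) (by rw [hv]; abel)
      (ne_of_q (by omega)) (by rw [abs_lt]; constructor <;> omega)
    rw [map_add (ev Θ)] at k1
    rw [map_sub (ev Θ)] at k2
    have k := hZ (ev Θ (z 1)) (ev Θ (z 4)) l4.le k1 k2
    linarith
  · -- class of `z₂`
    have q : (z 1).1 = (z 5).1 + (v.1 + v.1) := by rw [hv]; rfl
    have k3 := h.two_le 3 4 rfl (y := z 1 + z 5) (w := z 5 + v) (by rw [hv]; abel)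
      (ne_of_q (by simp only [Prod.fst_add]; omega))
      (by simp only [Prod.fst_add]; rw [abs_lt]; constructor <;> omega)
    have k4 := h.two_le 3 4 rfl (y := z 1 - z 5) (w := v) (by rw [hv]; abel)
      (ne_of_q (by omega)) (by rw [abs_lt]; constructor <;> omega)
    rw [map_add (ev Θ)] at k3
    rw [map_sub (ev Θ)] at k4
    have k := hZ (ev Θ (z 1)) (ev Θ (z 5)) (by linarith) k3 k4
    linarith
  · -- class of `x + u`
    have q : (z 1).1 = x.1 + u.1 + (v.1 + v.1) := by rw [hv]; rfl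
    have k1 := h.two_le 3 4 rfl (y := z 1 - (x + u)) (w := v) (by rw [hv]; abel)
      (ne_of_q (by omega)) (by rw [abs_lt]; constructor <;> omega)
    have k2 := h.two_le 3 4 rfl (y := z 1 + (x + u)) (w := x + u + v) (by rw [hv]; abel)
      (ne_of_q (by simp only [Prod.fst_add]; omega))
      (by simp only [Prod.fst_add]; rw [abs_lt]; constructor <;> omega)
    have k3 := h.two_le 3 4 rfl (y := z 1 - (x - u)) (w := u + v) (by rw [hv]; abel)
      (ne_of_q (by simp only [Prod.fst_add]; omega))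
      (by simp only [Prod.fst_add]; rw [abs_lt]; constructor <;> omega)
    have k4 := h.two_le 3 4 rfl (y := z 1 + (x - u)) (w := x + v) (by rw [hv]; abel)
      (by
        intro h0
        have h1 : v = -x := by rw [← sub_eq_zero, sub_neg_eq_add, add_comm]; exact h0
        apply hsp
        rw [hv, h1]; abel)
      (by simp only [Prod.fst_add]; rw [abs_lt]; constructor <;> omega)
    have k5 : N ((ev Θ x + ev Θ u) + (ev Θ x - ev Θ u)) = 2 * N (ev Θ x) := by
      rw [show (ev Θ x + ev Θ u) + (ev Θ x - ev Θ u) = ev Θ (x + x) by rw [map_add (ev Θ)]; abel, N_double]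
    have k6 : N ((ev Θ x + ev Θ u) - (ev Θ x - ev Θ u)) = 2 * N (ev Θ u) := by
      rw [show (ev Θ x + ev Θ u) - (ev Θ x - ev Θ u) = ev Θ (u + u) by rw [map_add (ev Θ)]; abel, N_double]
    rw [map_sub (ev Θ), map_add (ev Θ)] at k1
    rw [map_add (ev Θ), map_add (ev Θ)] at k2
    rw [map_sub (ev Θ), map_sub (ev Θ)] at k3
    rw [map_add (ev Θ), map_sub (ev Θ)] at k4
    exact six (N := N) (a := ev Θ (z 1)) (x := ev Θ x + ev Θ u) (y := ev Θ x - ev Θ u)
      (r := 2 * N (ev Θ (z 3))) (by linarith) uxu uxu' k2 k1 k4 k3 (by rw [k5]; linarith)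
      (by rw [k6]; linarith)
  · -- class of `z₃`
    have q : (z 1).1 = (z 6).1 + (v.1 + v.1) := by rw [hv]; rfl
    have hv' : z 1 = z 4 + u + (v + v) := by rw [hv, h.h6, h.h4]
    have k3 : 2 * N (ev Θ (z 3)) ≤ N (ev Θ (z 1 + z 6)) := by
      rcases C1.lt_or_eq with C2 | C2
      · exact h.two_le 3 4 rfl (y := z 1 + z 6) (w := z 6 + v) (by rw [hv]; abel)
          (ne_of_q (by simp only [Prod.fst_add]; omega))
          (by simp only [Prod.fst_add]; rw [abs_lt]; constructor <;> omega)
      · -- the first coordinate of `z₃ + v` is `M₁`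
        have hw : z 6 + v - z 4 ≠ 0 := by
          intro h0
          have h1 : v = -u := by
            rw [h.h6, h.h4] at h0
            rw [← sub_eq_zero, sub_neg_eq_add, ← h0]; abel
          apply hs1
          rw [hv', h1]; abel
        have k := h.zero (z 6 + v - z 4) hw (by
          simp only [Prod.fst_sub, Prod.fst_add]; omega)
        unfold er at k
        rw [map_sub (ev Θ)] at k
        have k' := map_sub_le_add N (ev Θ (z 6 + v)) (ev Θ (z 4))
        rw [show z 1 + z 6 = (z 6 + v) + (z 6 + v) by rw [hv]; abel, N_double]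
        linarith
    have k4 := h.two_le 3 4 rfl (y := z 1 - z 6) (w := v) (by rw [hv]; abel)
      (ne_of_q (by omega)) (by rw [abs_lt]; constructor <;> omega)
    rw [map_add (ev Θ)] at k3
    rw [map_sub (ev Θ)] at k4
    have k := hZ (ev Θ (z 1)) (ev Θ (z 6)) (by linarith) k3 k4
    linarith

end Pool.NE
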