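import Pool.Agent.Work.MP_7453a1_ne.Interface
import Pool.Agent.Work.MP_7453a1_nt_sym.Six

set_option autoImplicit false

/-!
# Block DIC: six-term inequality or a tiny vector
-/

namespace Pool.NE

open Pool.Agent.Work.MP_7453a1_nt_norm Pool.Agent.Work.MP_7453a1_nt_h45
open Pool.Agent.Work.MP_7453a1_nt_sym (IsFrame2 Cfg Bad)

theorem p_DIC (hPLN : Stmt_PLN) (hBDX : Stmt_BDX) : Stmt_DIC := by
  intro N A hNA Θ z hz i
  by_cases E1 : (z (i + 3)).1 + (z (i + 4)).1 ≤ (z (i + 6)).1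
  · exact Or.inl E1
  by_cases B1 : (z (i + 5)).1 + (z (i + 1)).1 ≤ (z (i + 6)).1
  · exact Or.inr (Or.inl B1)
  refine Or.inr (Or.inr ?_)
  have E : (z (i + 6)).1 < (z (i + 3)).1 + (z (i + 4)).1 := not_le.1 E1
  have B : (z (i + 6)).1 < (z (i + 5)).1 + (z (i + 1)).1 := not_le.1 B1
  have h := hz.shift i
  have e := h.toIsFrame.exceptional (i := 3) (j := 4) (l := 5) (m := 6) (by omega) (by omega)
    (by omega) E
  have e' : z (i + 3) + z (i + 6) = z (i + 4) + z (i + 5) := e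
  have e6 : z (i + 6) = z (i + 4) + z (i + 5) - z (i + 3) := by
    rw [← e']; abel
  have q6 : (z (i + 6)).1 = (z (i + 4)).1 + (z (i + 5)).1 - (z (i + 3)).1 := by
    rw [e6]; rfl
  have hb : Bad N Θ (fun j => z (i + j)) (z (i + 4) - z (i + 3)) (z (i + 5) - z (i + 3)) := by
    refine ⟨h, ?_, ?_, ?_, ?_, ?_⟩
    · show z (i + 4) = z (i + 3) + (z (i + 4) - z (i + 3))
      abel
    · show z (i + 5) = z (i + 3) + (z (i + 5) - z (i + 3))
      abel
    · show z (i + 6) = z (i + 3) + (z (i + 4) - z (i + 3)) + (z (i + 5) - z (i + 3))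
      rw [e6]; abel
    · show (z (i + 4) - z (i + 3)).1 < (z (i + 1)).1
      simp only [Prod.fst_sub]; omega
    · exact E
  have hc : Cfg N (-ev Θ (z (i + 5) - z (i + 3))) (ev Θ (z (i + 3))) (ev Θ (z (i + 4))) := hb.cfg
  have hx : ev Θ (z (i + 4)) - ev Θ (z (i + 3)) = ev Θ (z (i + 4) - z (i + 3)) :=
    (map_sub (ev Θ) _ _).symm
  refine ⟨E, e', ?_, ?_⟩
  · show N (ev Θ (z (i + 3))) < N (ev Θ (z (i + 4) - z (i + 3)))
    rw [← hx]; exact hc.nx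
  by_contra hcon
  have c1 : 0.16 * N (ev Θ (z (i + 3))) ≤ N (ev Θ (z (i + 6))) :=
    not_lt.1 fun h1 => hcon (Or.inl h1)
  have c2 : 0.195 * N (ev Θ (z (i + 3))) ≤ N (ev Θ (z (i + 3) + z (i + 6))) :=
    not_lt.1 fun h1 => hcon (Or.inr h1)
  obtain ⟨P1, P2, P3⟩ := hPLN N A hNA _ _ _ hc
  have s6 : ev Θ (z (i + 4)) - -ev Θ (z (i + 5) - z (i + 3)) = ev Θ (z (i + 6)) := by
    rw [sub_neg_eq_add, ← map_add (ev Θ), e6]
    congr 1
    abel
  have s7 : ev Θ (z (i + 3)) + ev Θ (z (i + 4)) - -ev Θ (z (i + 5) - z (i + 3)) =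
      ev Θ (z (i + 3) + z (i + 6)) := by
    rw [sub_neg_eq_add, ← map_add (ev Θ), ← map_add (ev Θ), e6]
    congr 1
    abel
  have P2' := P2 (by rw [s6]; exact c1)
  obtain ⟨P4, P5⟩ := P3 (by rw [s7]; exact c2)
  rw [hx] at P1 P2' P4
  rw [map_neg_eq_map, sub_neg_eq_add] at P2'
  rw [← sub_eq_add_neg] at P1 P4
  refine hBDX N Θ (fun j => z (i + j)) _ _ hb P1 P2' P4 ?_
  intro a y h1 h2 h3
  have h4 := P5 a y h1 h2 h3
  rw [hx] at h4
  exact h4

end Pool.NE
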