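import Pool.Agent.Work.MP_7453a1_ne.Interface

set_option autoImplicit false

/-!
# Block GRW: pure growth
-/

namespace Pool.NE

theorem GRW_bounds (ρ : ℝ) (h : ρ ^ 3 = ρ + 1) : 1 < ρ ∧ ρ < 1.325 := by
  have h1 : 1 < ρ := by
    by_contra hc
    push Not at hc
    rcases le_or_gt ρ (-1) with h2 | h2
    · nlinarith [sq_nonneg (ρ + 1), sq_nonneg ρ]
    · nlinarith [sq_nonneg (ρ + 1), sq_nonneg ρ, sq_nonneg (ρ - 1), mul_nonneg (sub_nonneg.2 hc) (sq_nonneg ρ)]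
  refine ⟨h1, ?_⟩
  by_contra hc
  push Not at hc
  have h2 : 1.325 * 1.325 ≤ ρ * ρ := mul_le_mul hc hc (by norm_num) (by linarith)
  have h3 : ρ * (ρ * ρ) = ρ + 1 := by rw [← h]; ring
  nlinarith

theorem GRW_step (ρ : ℝ) (h : ρ ^ 3 = ρ + 1) (C : ℝ) (hC : 0 < C) (q : ℕ → ℝ) (hq : Monotone q)
    (hpos : ∀ j, 0 < q j) (hfour : ∀ j, q j + q (j + 2) ≤ q (j + 4)) (i : ℕ)
    (halt : q (i + 3) + q (i + 4) ≤ q (i + 6) ∨ q (i + 5) + q (i + 1) ≤ q (i + 6) ∨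
      4.25 * q (i + 6) ≤ q (i + 7) ∨
      (q (i + 7) = q (i + 4) + q (i + 5) ∧ 3.12 * q (i + 7) ≤ q (i + 8)))
    (hG : ∀ j, i ≤ j → j < i + 6 → C * ρ ^ j ≤ q j) :
    ∃ i', i < i' ∧ (∀ j, i' ≤ j → j < i' + 6 → C * ρ ^ j ≤ q j) ∧
      ∀ j, i ≤ j → j < i' → C * ρ ^ j ≤ ρ * q j := by
  obtain ⟨h1, h2⟩ := GRW_bounds ρ h
  have hρ0 : 0 < ρ := by linarith
  have hsq : ρ ^ 2 < 1.7557 := by nlinarith
  have r4 : ρ ^ 4 = ρ ^ 2 + ρ := by
    have : ρ ^ 4 = ρ * ρ ^ 3 := by ring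
    rw [this, h]; ring
  have r5 : ρ ^ 5 = ρ ^ 2 + ρ + 1 := by
    have : ρ ^ 5 = ρ ^ 2 * ρ ^ 3 := by ring
    rw [this, h]
    have h3 : ρ ^ 2 * (ρ + 1) = ρ ^ 3 + ρ ^ 2 := by ring
    rw [h3, h]; ring
  have r6 : ρ ^ 6 = ρ ^ 2 + 2 * ρ + 1 := by
    have : ρ ^ 6 = ρ ^ 3 * ρ ^ 3 := by ring
    rw [this, h]; ring
  have r7 : ρ ^ 7 = 2 * ρ ^ 2 + 2 * ρ + 1 := by
    have : ρ ^ 7 = ρ ^ 3 * ρ ^ 4 := by ring
    rw [this, h, r4]
    have h3 : (ρ + 1) * (ρ ^ 2 + ρ) = ρ ^ 3 + 2 * ρ ^ 2 + ρ := by ring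
    rw [h3, h]; ring
  have hD : 0 < C * ρ ^ i := mul_pos hC (pow_pos hρ0 i)
  have hmon : ∀ a b : ℕ, a ≤ b → C * ρ ^ a ≤ C * ρ ^ b := fun a b hab =>
    mul_le_mul_of_nonneg_left (pow_le_pow_right₀ h1.le hab) hC.le
  have hweak : ∀ j, C * ρ ^ j ≤ q j → C * ρ ^ j ≤ ρ * q j := fun j hj =>
    hj.trans (le_mul_of_one_le_left (hpos j).le h1.le)
  have g1 := hG (i + 1) (by omega) (by omega)
  have g3 := hG (i + 3) (by omega) (by omega)
  have g4 := hG (i + 4) (by omega) (by omega)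
  have g5 := hG (i + 5) (by omega) (by omega)
  have e : ∀ t : ℕ, C * ρ ^ (i + t) = C * ρ ^ i * ρ ^ t := fun t => by rw [pow_add]; ring
  have g6 : C * ρ ^ (i + 5) ≤ q (i + 6) := g5.trans (hq (by omega))
  have g6' : C * ρ ^ (i + 6) ≤ ρ * q (i + 6) := by
    have h3 : C * ρ ^ (i + 6) = ρ * (C * ρ ^ (i + 5)) := by rw [pow_succ]; ring
    rw [h3]
    exact mul_le_mul_of_nonneg_left g6 hρ0.le
  rcases halt with ha | ha | ha | ⟨ha, hb⟩
  · have h6 : C * ρ ^ (i + 6) ≤ q (i + 6) := by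
      have h3 : C * ρ ^ (i + 6) = C * ρ ^ (i + 3) + C * ρ ^ (i + 4) := by
        rw [e, e, e, r6, h, r4]; ring
      linarith
    refine ⟨i + 1, by omega, fun j hj1 hj2 => ?_, fun j hj1 hj2 => ?_⟩
    · rcases Nat.lt_or_ge j (i + 6) with h3 | h3
      · exact hG j (by omega) h3
      · have : j = i + 6 := by omega
        rw [this]; exact h6
    · exact hweak j (hG j hj1 (by omega))
  · have h6 : C * ρ ^ (i + 6) ≤ q (i + 6) := by
      have h3 : C * ρ ^ (i + 6) = C * ρ ^ (i + 5) + C * ρ ^ (i + 1) := by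
        rw [e, e, e, r6, r5]; ring
      linarith
    refine ⟨i + 1, by omega, fun j hj1 hj2 => ?_, fun j hj1 hj2 => ?_⟩
    · rcases Nat.lt_or_ge j (i + 6) with h3 | h3
      · exact hG j (by omega) h3
      · have : j = i + 6 := by omega
        rw [this]; exact h6
    · exact hweak j (hG j hj1 (by omega))
  · have h7 : 4.25 * (C * ρ ^ (i + 5)) ≤ q (i + 7) := by linarith
    have h10 : C * ρ ^ (i + 10) ≤ q (i + 7) := by
      refine le_trans ?_ h7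
      have h3 : C * ρ ^ (i + 10) = C * ρ ^ (i + 5) * ρ ^ 5 := by
        rw [show i + 10 = i + 5 + 5 by omega, pow_add]; ring
      rw [h3]
      have h4 : 0 < C * ρ ^ (i + 5) := mul_pos hC (pow_pos hρ0 _)
      have h5 : ρ ^ 5 ≤ 4.25 := by rw [r5]; linarith
      nlinarith [mul_le_mul_of_nonneg_left h5 h4.le]
    have h12 : C * ρ ^ (i + 12) ≤ q (i + 11) := by
      have h8 : q (i + 7) + q (i + 9) ≤ q (i + 11) := hfour (i + 7)
      have h9 : q (i + 7) ≤ q (i + 9) := hq (by omega)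
      have h3 : C * ρ ^ (i + 12) = C * ρ ^ (i + 5) * ρ ^ 7 := by
        rw [show i + 12 = i + 5 + 7 by omega, pow_add]; ring
      rw [h3]
      have h4 : 0 < C * ρ ^ (i + 5) := mul_pos hC (pow_pos hρ0 _)
      have h5 : ρ ^ 7 ≤ 8.5 := by rw [r7]; linarith
      nlinarith [mul_le_mul_of_nonneg_left h5 h4.le]
    refine ⟨i + 7, by omega, fun j hj1 hj2 => ?_, fun j hj1 hj2 => ?_⟩
    · rcases Nat.lt_or_ge j (i + 11) with h3 | h3
      · exact (hmon j (i + 10) (by omega)).trans (h10.trans (hq (by omega)))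
      · exact (hmon j (i + 12) (by omega)).trans (h12.trans (hq (by omega)))
    · rcases Nat.lt_or_ge j (i + 6) with h3 | h3
      · exact hweak j (hG j hj1 h3)
      · have : j = i + 6 := by omega
        rw [this]; exact g6'
  · have h7 : C * ρ ^ (i + 7) ≤ q (i + 7) := by
      have h3 : C * ρ ^ (i + 7) = C * ρ ^ (i + 4) + C * ρ ^ (i + 5) := by
        rw [e, e, e, r7, r4, r5]; ring
      rw [ha]; linarith
    have h8 : 3.12 * (C * ρ ^ (i + 7)) ≤ q (i + 8) := by linarith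
    have h4 : 0 < C * ρ ^ (i + 7) := mul_pos hC (pow_pos hρ0 _)
    have h11 : C * ρ ^ (i + 11) ≤ q (i + 8) := by
      refine le_trans ?_ h8
      have h3 : C * ρ ^ (i + 11) = C * ρ ^ (i + 7) * ρ ^ 4 := by
        rw [show i + 11 = i + 7 + 4 by omega, pow_add]; ring
      rw [h3]
      have h5 : ρ ^ 4 ≤ 3.12 := by rw [r4]; linarith
      nlinarith [mul_le_mul_of_nonneg_left h5 h4.le]
    have h13 : C * ρ ^ (i + 13) ≤ q (i + 12) := by
      have h9 : q (i + 8) + q (i + 10) ≤ q (i + 12) := hfour (i + 8)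
      have h10 : q (i + 8) ≤ q (i + 10) := hq (by omega)
      have h3 : C * ρ ^ (i + 13) = C * ρ ^ (i + 7) * ρ ^ 6 := by
        rw [show i + 13 = i + 7 + 6 by omega, pow_add]; ring
      rw [h3]
      have h5 : ρ ^ 6 ≤ 6.24 := by rw [r6]; linarith
      nlinarith [mul_le_mul_of_nonneg_left h5 h4.le]
    refine ⟨i + 8, by omega, fun j hj1 hj2 => ?_, fun j hj1 hj2 => ?_⟩
    · rcases Nat.lt_or_ge j (i + 12) with h3 | h3
      · exact (hmon j (i + 11) (by omega)).trans (h11.trans (hq (by omega)))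
      · exact (hmon j (i + 13) (by omega)).trans (h13.trans (hq (by omega)))
    · rcases Nat.lt_or_ge j (i + 6) with h3 | h3
      · exact hweak j (hG j hj1 h3)
      · rcases Nat.lt_or_ge j (i + 7) with h5 | h5
        · have : j = i + 6 := by omega
          rw [this]; exact g6'
        · have : j = i + 7 := by omega
          rw [this]; exact hweak _ h7

theorem p_GRW : Stmt_GRW := by
  intro ρ h q hq0 hinc hfour halt k
  obtain ⟨h1, h2⟩ := GRW_bounds ρ h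
  have hρ0 : 0 < ρ := by linarith
  have hq : Monotone q := (strictMono_nat_of_lt_succ hinc).monotone
  have hpos : ∀ j, 0 < q j := fun j => hq0.trans_le (hq (Nat.zero_le j))
  have hC : 0 < q 0 / ρ ^ 5 := div_pos hq0 (pow_pos hρ0 5)
  have key : ∀ n : ℕ, ∃ i, n ≤ i ∧ (∀ j, i ≤ j → j < i + 6 → q 0 / ρ ^ 5 * ρ ^ j ≤ q j) ∧
      ∀ j, j < i → q 0 / ρ ^ 5 * ρ ^ j ≤ ρ * q j := by
    intro n
    induction n with
    | zero =>
      refine ⟨0, le_rfl, fun j _ hj => ?_, fun j hj => absurd hj (Nat.not_lt_zero j)⟩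
      have h3 : q 0 / ρ ^ 5 * ρ ^ j ≤ q 0 / ρ ^ 5 * ρ ^ 5 :=
        mul_le_mul_of_nonneg_left (pow_le_pow_right₀ h1.le (by omega)) hC.le
      rw [div_mul_cancel₀ _ (pow_pos hρ0 5).ne'] at h3
      exact h3.trans (hq (Nat.zero_le j))
    | succ n ih =>
      obtain ⟨i, hni, hG, hW⟩ := ih
      obtain ⟨i', hi', hG', hW'⟩ := GRW_step ρ h _ hC q hq hpos hfour i (halt i) hG
      refine ⟨i', by omega, hG', fun j hj => ?_⟩
      rcases Nat.lt_or_ge j i with h3 | h3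
      · exact hW j h3
      · exact hW' j h3 hj
  obtain ⟨i, hi, -, hW⟩ := key (k + 1)
  have h3 := hW k (by omega)
  have h4 : (ρ ^ 6)⁻¹ * ρ ^ k * q 0 = ρ⁻¹ * (q 0 / ρ ^ 5 * ρ ^ k) := by
    field_simp
  rw [h4]
  have h5 := mul_le_mul_of_nonneg_left h3 (inv_pos.2 hρ0).le
  rwa [← mul_assoc ρ⁻¹ ρ, inv_mul_cancel₀ hρ0.ne', one_mul] at h5

end Pool.NE
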