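import Pool.Agent.Work.MP_7453a1_ne.Interface

set_option autoImplicit false

/-!
# Block JMP: a short error forces a large next denominator
-/

namespace Pool.NE

open Pool.Agent.Work.MP_7453a1_nt_norm Pool.Agent.Work.MP_7453a1_nt_h45
open Pool.Agent.Work.MP_7453a1_nt_sym (IsFrame2 Cfg Bad)
open Pool.Agent.Work.MP_7453a1_nt_two (UG)

theorem p_JMP : Stmt_JMP := by
  intro N Θ z hz j
  have ha0 := hz.pos (j + 1)
  have hab := hz.mono (j + 1) (j + 2) (by omega)
  have hlt := hz.anti (j + 1) (j + 2) (by omega)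
  set a := z (j + 1) with ha
  set b := z (j + 2) with hb
  set m : ℤ := b.1 / a.1 with hm
  have hm1 : 1 ≤ m := by
    rw [hm, Int.le_ediv_iff_mul_le ha0]
    linarith
  have hmod0 : 0 ≤ b.1 - m * a.1 := by
    have := Int.emod_nonneg b.1 ha0.ne'
    have h2 := Int.emod_add_mul_ediv b.1 a.1
    rw [← hm] at h2
    linarith [mul_comm a.1 m]
  have hmod1 : b.1 - m * a.1 < a.1 := by
    have := Int.emod_lt_of_pos b.1 ha0
    have h2 := Int.emod_add_mul_ediv b.1 a.1
    rw [← hm] at h2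
    linarith [mul_comm a.1 m]
  have hy1 : (b - m • a).1 = b.1 - m * a.1 := by
    simp
  have hev : ev Θ (b - m • a) = ev Θ b - (m : ℝ) • ev Θ a := by
    rw [map_sub, map_zsmul, ← Int.cast_smul_eq_zsmul ℝ m (ev Θ a)]
  have hea : 0 ≤ er N Θ a := er_nonneg a
  have hmR : (1 : ℝ) ≤ (m : ℝ) := by exact_mod_cast hm1
  have haR : (0 : ℝ) < (a.1 : ℝ) := by exact_mod_cast ha0
  by_cases hy : b - m • a = 0
  · exfalso
    have h0 : ev Θ b = (m : ℝ) • ev Θ a := by
      have h1 := hev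
      rw [hy, map_zero] at h1
      exact (sub_eq_zero.1 h1.symm)
    have h1 : er N Θ b = (m : ℝ) * er N Θ a := by
      unfold er
      rw [h0, map_smul_eq_mul, Real.norm_eq_abs, abs_of_nonneg (by linarith)]
    rw [h1] at hlt
    nlinarith
  · have h1 : er N Θ (z j) ≤ er N Θ (b - m • a) := by
      refine hz.excl j _ hy ?_
      rw [hy1, abs_of_nonneg hmod0]
      exact hmod1
    have h2 : er N Θ (b - m • a) ≤ er N Θ b + (m : ℝ) * er N Θ a := by
      unfold er
      rw [hev]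
      refine (map_sub_le_add N _ _).trans ?_
      rw [map_smul_eq_mul, Real.norm_eq_abs, abs_of_nonneg (by linarith : (0 : ℝ) ≤ (m : ℝ))]
    have h3 : (m : ℝ) * (a.1 : ℝ) ≤ (b.1 : ℝ) := by
      have : m * a.1 ≤ b.1 := by linarith
      exact_mod_cast this
    have h4 : er N Θ (z j) < (1 + (m : ℝ)) * er N Θ a := by linarith
    calc er N Θ (z j) * (a.1 : ℝ) < (1 + (m : ℝ)) * er N Θ a * (a.1 : ℝ) :=
          mul_lt_mul_of_pos_right h4 haR
      _ = ((a.1 : ℝ) + (m : ℝ) * (a.1 : ℝ)) * er N Θ a := by ring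
      _ ≤ ((a.1 : ℝ) + (b.1 : ℝ)) * er N Θ a :=
          mul_le_mul_of_nonneg_right (by linarith) hea

end Pool.NE
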