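import Pool.Agent.Work.MP_7453a1_ne.Interface

set_option autoImplicit false

/-! # MP_7453a1_nt, nearly Euclidean norms: block PLN -/

namespace Pool.NE

open Pool.Agent.Work.MP_7453a1_nt_norm Pool.Agent.Work.MP_7453a1_nt_h45
open Pool.Agent.Work.MP_7453a1_nt_sym (IsFrame2 Cfg Bad)
open Pool.Agent.Work.MP_7453a1_nt_two (UG)

theorem PLN_nonneg (A : V →ₗ[ℝ] V) (y : V) : 0 ≤ En A y := by
  unfold En
  positivity

theorem PLN_par (A : V →ₗ[ℝ] V) (a y : V) : En A (a + y) + En A (a - y) = 2 * En A a + 2 * En A y := by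
  simp only [En, map_add, map_sub, Pi.add_apply, Pi.sub_apply]
  ring

theorem PLN_le {N : Seminorm ℝ V} {a b : V} (h : N a ^ 2 ≤ N b ^ 2) : N a ≤ N b :=
  (sq_le_sq₀ (apply_nonneg N a) (apply_nonneg N b)).1 h

theorem PLN_lt {N : Seminorm ℝ V} {a b : V} (h : N a < N b) : N a ^ 2 < N b ^ 2 :=
  (sq_lt_sq₀ (apply_nonneg N a) (apply_nonneg N b)).2 h

theorem p_PLN : Stmt_PLN := by
  intro N A hN v e0 e1 hC
  have i1 : En A (e1 - e0 + v) = En A (e1 - e0) + En A v + En A e1 + En A (e0 - v) - En A e0 - En A (e1 - v) := by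
    simp only [En, map_add, map_sub, Pi.add_apply, Pi.sub_apply]
    ring
  have i2 : En A (e1 - e0 - v) = En A v + En A (e1 - e0) - En A e1 - En A (e0 - v) + En A e0 + En A (e1 - v) := by
    simp only [En, map_add, map_sub, Pi.add_apply, Pi.sub_apply]
    ring
  have i3 : En A (e1 - e0) + En A v + En A (e0 + e1 - v) = En A e0 + En A e1 + En A (e0 - v) + En A (e1 - v) := by
    simp only [En, map_add, map_sub, Pi.add_apply, Pi.sub_apply]
    ring
  have i4 : En A (e1 + v) = En A (e1 - e0) + 3 * En A v - En A e0 - 2 * En A (e1 - v) + En A e1 - En A (e0 - v) +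
      En A (e0 + e1 - v) := by
    simp only [En, map_add, map_sub, Pi.add_apply, Pi.sub_apply]
    ring
  have s1 := PLN_lt hC.n1
  have s2 := PLN_lt hC.n2
  have s3 := PLN_lt hC.n3
  have sv := PLN_lt hC.nv
  have sx := PLN_lt hC.nx
  have n0 := apply_nonneg N e0
  have hR : N e0 ^ 2 ≤ 4 * N e1 ^ 2 := by
    have h1 : N v ≤ N e1 + N (e1 - v) := by
      have h2 : v = e1 - (e1 - v) := by abel
      calc N v = N (e1 - (e1 - v)) := by rw [← h2]
        _ ≤ N e1 + N (e1 - v) := map_sub_le_add N _ _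
    have h2 : N e0 ≤ 2 * N e1 := by linarith [hC.nv, hC.n2, hC.n3]
    nlinarith
  have l0 := hN.lo e0
  have l1 := hN.lo e1
  have l2 := hN.lo (e0 - v)
  have l3 := hN.lo (e1 - v)
  have u0 := hN.hi e0
  have u1 := hN.hi e1
  have u2 := hN.hi (e0 - v)
  have u3 := hN.hi (e1 - v)
  have uv := hN.hi v
  have ux := hN.hi (e1 - e0)
  have uw := hN.hi (e0 + e1 - v)
  have p0 := PLN_nonneg A e0
  have p1 := PLN_nonneg A e1
  have p2 := PLN_nonneg A (e0 - v)
  have p3 := PLN_nonneg A (e1 - v)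
  have pw := PLN_nonneg A (e0 + e1 - v)
  have hR0 : 0 ≤ N e0 ^ 2 := sq_nonneg _
  have q2 : 0 ≤ N (e0 - v) ^ 2 := sq_nonneg _
  refine ⟨?_, ?_, ?_⟩
  · apply PLN_le
    have h1 := hN.lo (e1 - e0 + v)
    rw [i1] at h1
    linarith
  · intro h3
    have h4 : (0.16 * N e0) ^ 2 ≤ N (e1 - v) ^ 2 := pow_le_pow_left₀ (by linarith) h3 2
    rw [mul_pow] at h4
    apply PLN_le
    have h1 := hN.lo (e1 - e0 - v)
    rw [i2] at h1
    norm_num at h4
    linarith
  · intro h3
    have h4 : (0.195 * N e0) ^ 2 ≤ N (e0 + e1 - v) ^ 2 := pow_le_pow_left₀ (by linarith) h3 2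
    rw [mul_pow] at h4
    norm_num at h4
    refine ⟨?_, ?_⟩
    · apply PLN_le
      have h1 := hN.lo (e1 + v)
      rw [i4] at h1
      linarith
    · intro a y hy ha1 ha2
      apply PLN_le
      have h5 : (2 * N e0) ^ 2 ≤ N (a + y) ^ 2 := pow_le_pow_left₀ (by linarith) ha1 2
      have h6 : (2 * N e0) ^ 2 ≤ N (a - y) ^ 2 := pow_le_pow_left₀ (by linarith) ha2 2
      have h7 : N y ^ 2 ≤ N e0 ^ 2 := pow_le_pow_left₀ (apply_nonneg N y) hy 2
      rw [mul_pow] at h5 h6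
      have h8 := PLN_par A a y
      have h9 := hN.lo y
      have h10 := hN.hi (a + y)
      have h11 := hN.hi (a - y)
      have h12 := hN.lo a
      linarith

end Pool.NE
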