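import Pool.Agent.Work.MP_7453a1_ne.Interface

set_option autoImplicit false

/-!
# Block UGN: uniform growth for nearly Euclidean norms
-/

namespace Pool.NE

open Pool.Agent.Work.MP_7453a1_nt_norm Pool.Agent.Work.MP_7453a1_nt_h45
open Pool.Agent.Work.MP_7453a1_nt_sym (IsFrame2 Cfg Bad)
open Pool.Agent.Work.MP_7453a1_nt_two (UG)

private lemma UGN_altA {e3 e5 e6 q6 q7 : ℝ} (he3 : 0 < e3) (hq6 : 0 < q6) (hq7 : 0 < q7)
    (h6 : e6 < 0.16 * e3) (h5 : 0.84 * e3 < e5) (hj : e5 * q6 < (q6 + q7) * e6) :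
    4.25 * q6 ≤ q7 := by
  have h1 : 0.84 * e3 * q6 < e5 * q6 := mul_lt_mul_of_pos_right h5 hq6
  have h2 : (q6 + q7) * e6 < (q6 + q7) * (0.16 * e3) :=
    mul_lt_mul_of_pos_left h6 (by linarith)
  have h3 : e3 * (0.84 * q6) < e3 * (0.16 * (q6 + q7)) := by nlinarith
  have h4 : 0.84 * q6 < 0.16 * (q6 + q7) := lt_of_mul_lt_mul_left h3 he3.le
  linarith

private lemma UGN_altB {e3 e6 e7 q7 q8 : ℝ} (he3 : 0 < e3) (hq7 : 0 < q7) (hq8 : 0 < q8)
    (h7 : e7 < 0.195 * e3) (h6 : 0.805 * e3 < e6) (hj : e6 * q7 < (q7 + q8) * e7) :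
    3.12 * q7 ≤ q8 := by
  have h1 : 0.805 * e3 * q7 < e6 * q7 := mul_lt_mul_of_pos_right h6 hq7
  have h2 : (q7 + q8) * e7 < (q7 + q8) * (0.195 * e3) :=
    mul_lt_mul_of_pos_left h7 (by linarith)
  have h3 : e3 * (0.805 * q7) < e3 * (0.195 * (q7 + q8)) := by nlinarith
  have h4 : 0.805 * q7 < 0.195 * (q7 + q8) := lt_of_mul_lt_mul_left h3 he3.le
  linarith

theorem p_UGN (hJMP : Stmt_JMP) (hDIC : Stmt_DIC) (hGRW : Stmt_GRW) : Stmt_UGN := by
  intro N A ρ hA hρ Θ z hz
  have hpos : ∀ k, (0 : ℝ) < ((z k).1 : ℝ) := fun k => by exact_mod_cast hz.pos k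
  refine hGRW ρ hρ (fun k => ((z k).1 : ℝ)) (hpos 0) (fun j => ?_) (fun j => ?_) (fun i => ?_)
  · exact_mod_cast hz.mono j (j + 1) (by omega)
  · exact_mod_cast hz.toIsFrame.four j
  · rcases hDIC N A hA Θ z hz i with h | h | ⟨hlt, hsum, hnx, hor⟩
    · left
      exact_mod_cast h
    · right; left
      exact_mod_cast h
    · have he63 : er N Θ (z (i + 6)) < er N Θ (z (i + 3)) := hz.anti _ _ (by omega)
      have he6 : 0 ≤ er N Θ (z (i + 6)) := er_nonneg _
      have he3 : 0 < er N Θ (z (i + 3)) := lt_of_le_of_lt he6 he63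
      rcases hor with h | h
      · right; right; left
        have hx : z (i + 4) - z (i + 3) = z (i + 6) - z (i + 5) := by
          rw [sub_eq_sub_iff_add_eq_add, ← hsum]
          abel
        have h1 : er N Θ (z (i + 4) - z (i + 3)) ≤ er N Θ (z (i + 6)) + er N Θ (z (i + 5)) := by
          rw [hx]
          exact er_sub_le _ _
        exact UGN_altA he3 (hpos (i + 6)) (hpos (i + 7)) h (by linarith)
          (hJMP N Θ z hz.toIsFrame (i + 5))
      · right; right; right
        set w : Pt 2 := z (i + 3) + z (i + 6) with hw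
        have h1 : er N Θ (z (i + 3)) ≤ er N Θ w + er N Θ (z (i + 6)) := by
          have h0 := er_sub_le (N := N) (Θ := Θ) w (z (i + 6))
          have h2 : w - z (i + 6) = z (i + 3) := by rw [hw]; abel
          rwa [h2] at h0
        have h6 : 0.805 * er N Θ (z (i + 3)) < er N Θ (z (i + 6)) := by linarith
        have hw1 : w.1 = (z (i + 3)).1 + (z (i + 6)).1 := rfl
        have hw1' : w.1 = (z (i + 4)).1 + (z (i + 5)).1 := by
          rw [hsum]
          rfl
        have p3 := hz.pos (i + 3)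
        have p6 := hz.pos (i + 6)
        have hw0 : w ≠ 0 := by
          intro h0
          rw [h0] at hw1
          simp only [Prod.fst_zero] at hw1
          omega
        have hge : (z (i + 7)).1 ≤ w.1 := by
          by_contra hcon
          push Not at hcon
          have habs : |w.1| < (z (i + 6 + 1)).1 := by
            rw [abs_of_pos (by omega)]
            exact hcon
          have := hz.excl (i + 6) w hw0 habs
          linarith
        have hle : (z (i + 4)).1 + (z (i + 5)).1 ≤ (z (i + 7)).1 := hz.toIsFrame.no_two (i + 3) hlt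
        have heq : (z (i + 7)).1 = w.1 := by omega
        have hz7 : w = z (i + 7) := by
          by_contra hne
          have hd : w - z (i + 7) ≠ 0 := sub_ne_zero.2 hne
          have hd1 : (w - z (i + 7)).1 = 0 := by
            rw [Prod.fst_sub, heq, sub_self]
          have h2 := hz.zero _ hd hd1
          have h3 := er_sub_le (N := N) (Θ := Θ) w (z (i + 7))
          have h4 : er N Θ (z (i + 3)) < er N Θ (z 0) := hz.anti _ _ (by omega)
          have h5 : er N Θ (z (i + 7)) < er N Θ (z 0) := hz.anti _ _ (by omega)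
          linarith
        have h7 : er N Θ (z (i + 7)) < 0.195 * er N Θ (z (i + 3)) := by
          rw [← hz7]
          exact h
        refine ⟨?_, ?_⟩
        · have : (z (i + 7)).1 = (z (i + 4)).1 + (z (i + 5)).1 := by omega
          change (((z (i + 7)).1 : ℤ) : ℝ) = ((z (i + 4)).1 : ℝ) + ((z (i + 5)).1 : ℝ)
          rw [this]
          push_cast
          ring
        · exact UGN_altB he3 (hpos (i + 7)) (hpos (i + 8)) h7 h6
            (hJMP N Θ z hz.toIsFrame (i + 6))

end Pool.NE
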