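import Pool.Agent.Work.MP_7453a1_nt_two.Unif

set_option autoImplicit false

/-!
# The lower bound for norms which are nearly Euclidean, `m + n = 3` (helper85)

`E y ≤ N y ^ 2 ≤ 1.004 E y` for a quadratic form `E`.  The planar lemmas K, I, F, Z, P of the folder `MP_7453a1_nt_sym` hold for such a norm
except when `e3` or `e0 + e3` is very small; then the next denominator is very large.
-/

namespace Pool.NE

open Pool.Agent.Work.MP_7453a1_nt_norm Pool.Agent.Work.MP_7453a1_nt_h45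
open Pool.Agent.Work.MP_7453a1_nt_sym (IsFrame2 Cfg Bad)
open Pool.Agent.Work.MP_7453a1_nt_two (UG)

/-- the plane -/
abbrev V : Type := Fin 2 → ℝ

/-- a quadratic form -/
def En (A : V →ₗ[ℝ] V) (y : V) : ℝ := A y 0 ^ 2 + A y 1 ^ 2

/-- the norm is nearly Euclidean -/
structure Near (N : Seminorm ℝ V) (A : V →ₗ[ℝ] V) : Prop where
  lo : ∀ y, En A y ≤ N y ^ 2
  hi : ∀ y, N y ^ 2 ≤ 1.004 * En A y

/-- **PLN** (150 lines), uses nothing.  `Cfg N v e0 e1` is in `MP_7453a1_nt_sym/Interface.lean`.  Put `e2 = e0 - v`, `e3 = e1 - v`, `x = e1 - e0`, `w = e0 + e1 - v`,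
`R = N e0 ^ 2`, `E = En A`, `E0 = E e0` etc.  Squares: `N e3 ^ 2 < N e2 ^ 2 < N e1 ^ 2 < R`, `R < N v ^ 2`, `R < N x ^ 2` (`pow_lt_pow_left₀`), `R / 4 < N e1 ^ 2`
(`N e0 < N v ≤ N e1 + N e3 < 2 N e1`, as `v = e1 - e3`).  Identities (`simp [En, map_add, map_sub]; ring`):
`E (x + v) = Ex + Ev + E1 + E2 - E0 - E3`, `E (x - v) = Ev + Ex - E1 - E2 + E0 + E3`, `Ex + Ev + Ew = E0 + E1 + E2 + E3`,
`E (e1 + v) = Ex + 3 Ev - E0 - 2 E3 + E1 - E2 + Ew`, `E (a + y) + E (a - y) = 2 E a + 2 E y`.  Every claim `N x ≤ N c` follows from `N x ^ 2 ≤ N c ^ 2` (`abs_le_abs`, `pow_le_pow_left₀`,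
`le_of_sq_le_sq` ..), and this from `linarith` (everything is linear in the numbers `E ..`, `N .. ^ 2`; all `E ≥ 0`):
(K) `1.004 Ev + 0.996 E1 + 0.996 E2 ≥ 1.004 E0 + 1.004 E3`, since `1.004 Ev ≥ R`, `1.004 E0 ≤ 1.004 R`, `0.996 E2 - 1.004 E3 ≥ - 0.012 R` (`E2 ≥ N e2 ^ 2 / 1.004`, `E3 ≤ N e3 ^ 2 ≤ N e2 ^ 2`),
`0.996 E1 ≥ 0.24 R`.
(P) `N v ≤ N (x - v)`: `1.004 Ex - 1.004 E1 - 1.004 E2 + 0.996 E0 + 0.996 E3 ≥ 0` since `1.004 Ex ≥ R`, `0.996 E0 ≥ 0.992 R`, `1.004 E3 ≥ N e3 ^ 2 ≥ 0.0256 R`.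
(I) `0.996 E1 + 3.004 Ev - 2.004 E3 - 1.004 E0 - 1.004 E2 + 1.004 Ew ≥ 0`, `1.004 Ew ≥ N w ^ 2 ≥ 0.038025 R`, `0.996 E1 - 1.004 E2 ≥ - 0.012 R`, `3.004 Ev ≥ 2.992 R`.
(Z) `N a ^ 2 ≥ E a ≥ 4 R / 1.004 - E y ≥ 2.984 R`, `N x ^ 2 ≤ 1.004 Ex = 1.004 (E0 + E1 + E2 + E3 - Ev - Ew) ≤ 3.016 R - 0.038 R`. -/
def Stmt_PLN : Prop :=
  ∀ (N : Seminorm ℝ V) (A : V →ₗ[ℝ] V), Near N A → ∀ v e0 e1 : V, Cfg N v e0 e1 →
    N (e1 - e0) ≤ N (e1 - e0 + v) ∧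
    (0.16 * N e0 ≤ N (e1 - v) → N v ≤ N (e1 - e0 - v)) ∧
    (0.195 * N e0 ≤ N (e0 + e1 - v) → N (e1 - e0) ≤ N (e1 + v) ∧
      ∀ a y, N y ≤ N e0 → 2 * N e0 ≤ N (a + y) → 2 * N e0 ≤ N (a - y) → N (e1 - e0) ≤ N a)

/-- **BDX** (450 lines, but an adaptation), uses nothing.  Adaptation of `Bad.prev` and `Bad.absurd` of `MP_7453a1_nt_sym/Six.lean` (the lemmas `qs`, `ls`, `cfg`, `us`, `ne_double`, `cls`,
`two_le`, `e4`, `e5`, `e6`, `N_double`, `cmp_scaled` of that file do not use `Sym` and are cited: import `Pool.Agent.Work.MP_7453a1_nt_sym.Six`).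
`prev`: `hsp1` now from `hP` (`z 2 = x + u` gives `N u ≤ N (z 2)`; but `N (z 2) < N (z 1) ≤ N u` as in the old proof); `hsp2` from `hK`.
`absurd`: `hsp` from `hK`, `hs1` from `hI`, `hs0` is not needed.  Classes of `z 3` and `z 4`: `hZ` with `y = ev z 3`, `y = ev z 4`, contradiction to
`N (z 1) < N (z 0) ≤ N x`.  Class of `z 5`: only `k3`, `k4` and `hZ` with `y = ev z 5`.  Class of `z 6`: only `k3`, `k4` (with the old proof of `k3`, which uses `hs1` and `zero`) and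
`hZ` with `y = ev z 6`.  All other classes unchanged. -/
def Stmt_BDX : Prop :=
  ∀ (N : Seminorm ℝ V) (Θ : V) (z : ℕ → Pt 2) (x u : Pt 2), Bad N Θ z x u →
    N (ev Θ x) ≤ N (ev Θ x - ev Θ u) → N (ev Θ u) ≤ N (ev Θ x + ev Θ u) → N (ev Θ x) ≤ N (ev Θ (z 4) - ev Θ u) →
    (∀ a y, N y ≤ N (ev Θ (z 3)) → 2 * N (ev Θ (z 3)) ≤ N (a + y) → 2 * N (ev Θ (z 3)) ≤ N (a - y) →
      N (ev Θ x) ≤ N a) → False

/-- **JMP** (60 lines), uses nothing.  Let `q j = (z j).1` and `m = q (j+2) / q (j+1)` (integer quotient, `m ≥ 1`), `y = z (j+2) - m z (j+1)`, so `0 ≤ y.1 < q (j+1)`.  If `y ≠ 0` then by `excl j`: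
`er (z j) ≤ er y ≤ er (z (j+2)) + m er (z (j+1)) < (1 + m) er (z (j+1))`, and `m ≤ q (j+2) / q (j+1)`.  If `y = 0` then
`er (z (j+2)) = m er (z (j+1)) ≥ er (z (j+1))`, a contradiction to `anti`. -/
def Stmt_JMP : Prop :=
  ∀ (N : Seminorm ℝ V) (Θ : V) (z : ℕ → Pt 2), IsFrame N Θ z → ∀ j : ℕ,
    er N Θ (z j) * ((z (j + 1)).1 : ℝ) < (((z (j + 1)).1 : ℝ) + ((z (j + 2)).1 : ℝ)) * er N Θ (z (j + 1))

/-- **DIC** (120 lines), uses PLN BDX.  As `stmt_SIX` at the end of `MP_7453a1_nt_sym/Six.lean`: if the first two alternatives fail, `exceptional` gives `z (i+3) + z (i+6) = z (i+4) + z (i+5)` and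
`Bad` for `fun j => z (i + j)`, `x = z (i+4) - z (i+3)`, `u = z (i+5) - z (i+3)`; `Bad.cfg` is `Cfg N (- ev u) (ev z3) (ev z4)`, its `nx` the third claim.  If both last alternatives fail, PLN with
`v = - ev u` (`e1 - v = ev (z 6)`, `e0 + e1 - v = ev (z 3 + z 6)`, `e1 - e0 = ev x`) gives the four hypotheses of BDX. -/
def Stmt_DIC : Prop :=
  ∀ (N : Seminorm ℝ V) (A : V →ₗ[ℝ] V), Near N A → ∀ (Θ : V) (z : ℕ → Pt 2), IsFrame2 N Θ z → ∀ i : ℕ,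
    (z (i + 3)).1 + (z (i + 4)).1 ≤ (z (i + 6)).1 ∨ (z (i + 5)).1 + (z (i + 1)).1 ≤ (z (i + 6)).1 ∨
    ((z (i + 6)).1 < (z (i + 3)).1 + (z (i + 4)).1 ∧ z (i + 3) + z (i + 6) = z (i + 4) + z (i + 5) ∧
      er N Θ (z (i + 3)) < er N Θ (z (i + 4) - z (i + 3)) ∧
      (er N Θ (z (i + 6)) < 0.16 * er N Θ (z (i + 3)) ∨
        er N Θ (z (i + 3) + z (i + 6)) < 0.195 * er N Θ (z (i + 3))))

/-- **GRW** (150 lines), uses nothing.  Pure growth (`q k = (z k).1`).  `C = q 0 / ρ ^ 5`; `Good i`: `C ρ ^ (i + t) ≤ q (i + t)` for `t < 6`.  `Good 0` (`q` is increasing, `ρ ^ t ≤ ρ ^ 5`).  Step: `Good i` gives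
`i' > i`, `Good i'`, and `C ρ ^ j ≤ ρ q j` for `i ≤ j < i'`.  First two alternatives: `i' = i + 1` (`ρ ^ 3 = ρ + 1`, `ρ ^ 5 = ρ ^ 4 + 1`, see `UG_sym` in
`MP_7453a1_nt_two/Unif.lean`).  Third: `q (i + 7) ≥ 4.25 q (i + 6) ≥ 4.25 C ρ ^ (i + 5) ≥ C ρ ^ (i + 10)` (`ρ ^ 5 ≤ 4.08`), so `q (i + t) ≥ C ρ ^ (i + t)` for `t = 7, .., 10` and for
`t = 11, 12`, as `q (i + 11) ≥ 2 q (i + 7)` (`four` twice: `q (j + 4) ≥ 2 q j`), `8.5 ≥ ρ ^ 7` (`ρ ^ 7 ≤ 7.17`): `i' = i + 7`.  Fourth: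
`q (i + 7) = q (i + 4) + q (i + 5) ≥ C ρ ^ (i + 7)`, `q (i + 8) ≥ 3.12 q (i + 7) ≥ C ρ ^ (i + 11)` (`ρ ^ 4 ≤ 3.081`), `q (i + 12) ≥ 2 q (i + 8) ≥ 6.24 C ρ ^ (i + 7) ≥ C ρ ^ (i + 13)` (`ρ ^ 6 ≤ 5.41`):
`i' = i + 8`.  So `q j ≥ C ρ ^ (j - 1)` for all `j`.  `rho_bounds` is in `MP_7453a1_nt` (`Pool.Agent.Work.MP_7453a1_nt.rho_bounds`). -/
def Stmt_GRW : Prop :=
  ∀ ρ : ℝ, ρ ^ 3 = ρ + 1 → ∀ q : ℕ → ℝ, 0 < q 0 → (∀ j, q j < q (j + 1)) → (∀ j, q j + q (j + 2) ≤ q (j + 4)) →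
    (∀ i, q (i + 3) + q (i + 4) ≤ q (i + 6) ∨ q (i + 5) + q (i + 1) ≤ q (i + 6) ∨ 4.25 * q (i + 6) ≤ q (i + 7) ∨
      (q (i + 7) = q (i + 4) + q (i + 5) ∧ 3.12 * q (i + 7) ≤ q (i + 8))) →
    ∀ k, (ρ ^ 6)⁻¹ * ρ ^ k * q 0 ≤ q k

/-- **UGN** (150 lines), uses JMP DIC GRW.  `GRW` for `q k = (z k).1`; `four` is `IsFrame.four`.  The alternatives of DIC: write `e j = er (z j)`, `x = z (i+4) - z (i+3) = z (i+6) - z (i+5)`.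
(A) `e (i+6) < 0.16 e (i+3)`: `e (i+3) < er x ≤ e (i+6) + e (i+5)`, so `e (i+5) ≥ 0.84 e (i+3)`, JMP for `j = i + 5`: `0.84 e (i+3) q (i+6) < (q (i+6) + q (i+7)) 0.16 e (i+3)`, so `q (i+7) ≥ 4.25 q (i+6)`.
(B) `w = z (i+3) + z (i+6) = z (i+4) + z (i+5)`, `er w < 0.195 e (i+3)`: `e (i+6) ≥ e (i+3) - er w > 0.805 e (i+3) > er w`.  `w.1 ≥ q (i+7)` by `excl (i+6)`, `w.1 = q (i+4) + q (i+5) ≤ q (i+7)` by `no_two (i+3)`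
(`IsFrame.no_two`), so equality, and `w = z (i+7)`, since otherwise `w - z (i+7) ≠ 0` has first coordinate `0` and `zero` gives `2 e 0 ≤ er w + e (i+7) < 2 e 0`.  So `e (i+7) < 0.195 e (i+3)`, JMP for `j = i + 6`:
`0.805 e (i+3) q (i+7) < (q (i+7) + q (i+8)) 0.195 e (i+3)`, so `q (i+8) ≥ 3.12 q (i+7)`. -/
def Stmt_UGN : Prop :=
  ∀ (N : Seminorm ℝ V) (A : V →ₗ[ℝ] V) (ρ : ℝ), Near N A → ρ ^ 3 = ρ + 1 → UG N ρ (ρ ^ 6)⁻¹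

end Pool.NE
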