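import Pool.Agent.Work.MP_7453a1_gi.HandIn
import Pool.Agent.Work.MP_7453a1_ne.Interface
import Pool.Agent.Work.MP_7453a1_nt_two.Final

set_option autoImplicit false

/-! # The exact value for nearly Euclidean norms from the blocks -/

namespace Pool.NE

open Pool.Agent.Work.MP_7453a1_nt_norm (IsNorm)
open Pool.Agent.Work.MP_7453a1_nt_two (Admissible G g M Lengths col low12 low lengths12 adm12 N1_pos infinite_lengths UG)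
open Pool.GI (Up NearEuclid)

/-- the squares of the norm and of a Euclidean norm on the plane differ by a factor at most `1.004` -/
def NearlyEuclidean {k : ℕ} (N : Seminorm ℝ (Fin k → ℝ)) : Prop :=
  k = 2 ∧ ∃ A : (Fin k → ℝ) →ₗ[ℝ] (Fin k → ℝ),
    ∀ x, N x ^ 2 ≤ ∑ i, A x i ^ 2 ∧ ∑ i, A x i ^ 2 ≤ 1.004 * N x ^ 2

theorem near_of {N : Seminorm ℝ V} (h : NearlyEuclidean N) : ∃ A : V →ₗ[ℝ] V, Near N A := by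
  obtain ⟨-, A, hA⟩ := h
  have h0 : (1 / √1.004 : ℝ) ^ 2 = 1 / 1.004 := by
    rw [div_pow, Real.sq_sqrt (by norm_num), one_pow]
  have e : ∀ y, En ((1 / √1.004 : ℝ) • A) y = 1 / 1.004 * ∑ i, A y i ^ 2 := by
    intro y
    rw [En, Fin.sum_univ_two]
    simp only [LinearMap.smul_apply, Pi.smul_apply, smul_eq_mul, mul_pow, h0]
    ring
  refine ⟨(1 / √1.004 : ℝ) • A, ⟨fun y => ?_, fun y => ?_⟩⟩
  · have h1 := (hA y).2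
    rw [e]
    linarith
  · have h1 := (hA y).1
    rw [e]
    linarith

theorem near_comp {N : Seminorm ℝ V} {A : V →ₗ[ℝ] V} (h : Near N A) (B : V →ₗ[ℝ] V) :
    Near (N.comp B) (A ∘ₗ B) := ⟨fun y => h.lo (B y), fun y => h.hi (B y)⟩

theorem nearEuclid_of {N : Seminorm ℝ V} (h : NearlyEuclidean N) {ρ : ℝ} (hρ : ρ ^ 3 = ρ + 1) :
    NearEuclid ρ N := by
  obtain ⟨-, A, hA⟩ := h
  obtain ⟨r1, r2⟩ := Pool.Agent.Work.MP_7453a1_nt.rho_bounds hρ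
  have h0 : (√1.004 : ℝ) ^ 2 = 1.004 := Real.sq_sqrt (by norm_num)
  refine ⟨A, √1.004, by rw [h0]; linarith, fun x => ?_⟩
  rw [h0]
  exact hA x

/-- `m = 1` -/
theorem exact12 (hUGN : Stmt_UGN) {ρ : ℝ} (hρ : ρ ^ 3 = ρ + 1) {N : Seminorm ℝ V} {N₁ : Seminorm ℝ (Fin 1 → ℝ)}
    (hN : IsNorm N) (hN₁ : IsNorm N₁) (h : NearlyEuclidean N) (hup : Up ρ 1 N) :
    g N₁ N = ENNReal.ofReal ρ ∧
    (∃ Θ : Matrix (Fin 2) (Fin 1) ℝ, Admissible Θ ∧ G N₁ N Θ = ENNReal.ofReal ρ) ∧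
    (∀ Θ : Matrix (Fin 2) (Fin 1) ℝ, Admissible Θ → (Lengths N₁ N Θ).Infinite ∧
      ∃ c' : ℝ, 0 < c' ∧ ∀ ν, 1 ≤ ν → c' * ρ ^ ν ≤ M N₁ N Θ ν) := by
  obtain ⟨A, hA⟩ := near_of h
  have hk := N1_pos hN₁
  have hρ1 := Pool.Agent.Work.MP_7453a1_nt_two.one_le_rho hρ
  have low' : ∀ Θ : Matrix (Fin 2) (Fin 1) ℝ, Admissible Θ →
      (∃ c' : ℝ, 0 < c' ∧ ∀ ν, 1 ≤ ν → c' * ρ ^ ν ≤ M N₁ N Θ ν) ∧
        ENNReal.ofReal ρ ≤ G N₁ N Θ := fun Θ hΘ =>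
    low12 hN hN₁ hΘ hρ1 (c := (ρ ^ 6)⁻¹) (by positivity) (hUGN N A ρ hA hρ)
  obtain ⟨Θ₀, hadm, hup'⟩ := (hup N₁ hN₁).1
  rw [Real.rpow_one] at hup'
  refine ⟨le_antisymm (iInf₂_le_of_le Θ₀ hadm hup') (le_iInf₂ fun Θ hΘ => (low' Θ hΘ).2),
    ⟨Θ₀, hadm, le_antisymm hup' (low' Θ₀ hadm).2⟩, fun Θ hΘ => ⟨?_, (low' Θ hΘ).1⟩⟩
  have h2 := Pool.Agent.Work.MP_7453a1_nt_norm.infinite hN (adm12.mp hΘ)
  refine (h2.image (f := fun k : ℕ => (k : ℝ) * N₁ (fun _ => 1)) ?_).mono ?_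
  · intro a _ b _ hab
    have h4 := mul_right_cancel₀ hk.ne' hab
    exact_mod_cast h4
  · rintro r ⟨k, hk1, rfl⟩
    exact (lengths12 hN₁ _).mpr ⟨k, hk1, rfl⟩

/-- `m = 2` -/
theorem exact21 (hUGN : Stmt_UGN) {ρ : ℝ} (hρ : ρ ^ 3 = ρ + 1) {N : Seminorm ℝ V} {N₁ : Seminorm ℝ (Fin 1 → ℝ)}
    (hN : IsNorm N) (hN₁ : IsNorm N₁) (h : NearlyEuclidean N) (hup : Up ρ 1 N) :
    g N N₁ = ENNReal.ofReal (ρ ^ (1 / (2 : ℝ))) ∧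
    (∃ Θ : Matrix (Fin 1) (Fin 2) ℝ, Admissible Θ ∧ G N N₁ Θ = ENNReal.ofReal (ρ ^ (1 / (2 : ℝ)))) ∧
    (∀ Θ : Matrix (Fin 1) (Fin 2) ℝ, Admissible Θ → (Lengths N N₁ Θ).Infinite ∧
      ∃ c' : ℝ, 0 < c' ∧ ∀ ν, 1 ≤ ν → c' * (ρ ^ (1 / (2 : ℝ))) ^ ν ≤ M N N₁ Θ ν) := by
  obtain ⟨A, hA⟩ := near_of h
  have hρ1 := Pool.Agent.Work.MP_7453a1_nt_two.one_le_rho hρ
  have low' : ∀ Θ : Matrix (Fin 1) (Fin 2) ℝ, Admissible Θ →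
      (∃ c' : ℝ, 0 < c' ∧ ∀ ν, 1 ≤ ν → c' * (Real.sqrt ρ) ^ ν ≤ M N N₁ Θ ν) ∧
        ENNReal.ofReal (Real.sqrt ρ) ≤ G N N₁ Θ := fun Θ hΘ =>
    low hN hN₁ hΘ hρ1 (c := (ρ ^ 6)⁻¹) (by positivity) (fun B _ => hUGN (N.comp B) (A ∘ₗ B) ρ (near_comp hA B) hρ)
  rw [← Real.sqrt_eq_rpow]
  obtain ⟨Θ₀, hadm, hup'⟩ := (hup N₁ hN₁).2
  rw [← Real.sqrt_eq_rpow] at hup'
  exact ⟨le_antisymm (iInf₂_le_of_le Θ₀ hadm hup') (le_iInf₂ fun Θ hΘ => (low' Θ hΘ).2),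
    ⟨Θ₀, hadm, le_antisymm hup' (low' Θ₀ hadm).2⟩, fun Θ hΘ => ⟨infinite_lengths hN hN₁ hΘ, (low' Θ hΘ).1⟩⟩

end Pool.NE
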