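import Pool.Agent.Work.MP_7453a1_gi.All
import Pool.Agent.Work.MP_7453a1_ne.HandIn
import Pool.Agent.Work.MP_7453a1_ne.B_PLN
import Pool.Agent.Work.MP_7453a1_ne.B_BDX
import Pool.Agent.Work.MP_7453a1_ne.B_JMP
import Pool.Agent.Work.MP_7453a1_ne.B_DIC
import Pool.Agent.Work.MP_7453a1_ne.B_GRW
import Pool.Agent.Work.MP_7453a1_ne.B_UGN

set_option autoImplicit false

/-! # All blocks together -/

namespace Pool.NE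

open Pool.Agent.Work.MP_7453a1_nt_norm (IsNorm)
open Pool.Agent.Work.MP_7453a1_nt_two (Admissible G g M Lengths)

theorem q_PLN : Stmt_PLN := p_PLN
theorem q_BDX : Stmt_BDX := p_BDX
theorem q_JMP : Stmt_JMP := p_JMP
theorem q_DIC : Stmt_DIC := p_DIC q_PLN q_BDX
theorem q_GRW : Stmt_GRW := p_GRW
theorem q_UGN : Stmt_UGN := p_UGN q_JMP q_DIC q_GRW

/-- the exact value for nearly Euclidean norms, `m = 1` -/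
theorem exact_near12 {ρ : ℝ} (hρ : ρ ^ 3 = ρ + 1) {N : Seminorm ℝ V} {N₁ : Seminorm ℝ (Fin 1 → ℝ)}
    (hN : IsNorm N) (hN₁ : IsNorm N₁) (h : NearlyEuclidean N) :
    g N₁ N = ENNReal.ofReal ρ ∧
    (∃ Θ : Matrix (Fin 2) (Fin 1) ℝ, Admissible Θ ∧ G N₁ N Θ = ENNReal.ofReal ρ) ∧
    (∀ Θ : Matrix (Fin 2) (Fin 1) ℝ, Admissible Θ → (Lengths N₁ N Θ).Infinite ∧
      ∃ c' : ℝ, 0 < c' ∧ ∀ ν, 1 ≤ ν → c' * ρ ^ ν ≤ M N₁ N Θ ν) :=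
  exact12 q_UGN hρ hN hN₁ h (Pool.GI.upper_near hρ hN (nearEuclid_of h hρ))

/-- the exact value for nearly Euclidean norms, `m = 2` -/
theorem exact_near21 {ρ : ℝ} (hρ : ρ ^ 3 = ρ + 1) {N : Seminorm ℝ V} {N₁ : Seminorm ℝ (Fin 1 → ℝ)}
    (hN : IsNorm N) (hN₁ : IsNorm N₁) (h : NearlyEuclidean N) :
    g N N₁ = ENNReal.ofReal (ρ ^ (1 / (2 : ℝ))) ∧
    (∃ Θ : Matrix (Fin 1) (Fin 2) ℝ, Admissible Θ ∧ G N N₁ Θ = ENNReal.ofReal (ρ ^ (1 / (2 : ℝ)))) ∧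
    (∀ Θ : Matrix (Fin 1) (Fin 2) ℝ, Admissible Θ → (Lengths N N₁ Θ).Infinite ∧
      ∃ c' : ℝ, 0 < c' ∧ ∀ ν, 1 ≤ ν → c' * (ρ ^ (1 / (2 : ℝ))) ^ ν ≤ M N N₁ Θ ν) :=
  exact21 q_UGN hρ hN hN₁ h (Pool.GI.upper_near hρ hN (nearEuclid_of h hρ))

end Pool.NE
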